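import Pool.Agent.LRB.Stmts

/-!
Theorem B for the lonely runner gap: module LRB_CNT (count of the region).
-/

set_option autoImplicit false

namespace LRB

open Finset

namespace CntAux

lemma card_interval (S : Finset ℕ) (a b : ℝ) (hab : a ≤ b)
    (h : ∀ n ∈ S, a ≤ (n : ℝ) ∧ (n : ℝ) ≤ b) (hb : 0 ≤ b) : (S.card : ℝ) ≤ b - a + 1 := by
  have hsub : S ⊆ Finset.Icc ⌈a⌉₊ ⌊b⌋₊ := by
    intro n hn
    obtain ⟨h1, h2⟩ := h n hn
    rw [Finset.mem_Icc]
    exact ⟨Nat.ceil_le.2 h1, Nat.le_floor h2⟩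
  have hc := Finset.card_le_card hsub
  rw [Nat.card_Icc] at hc
  have h1 : ((⌊b⌋₊ + 1 - ⌈a⌉₊ : ℕ) : ℝ) ≤ b - a + 1 := by
    rcases le_total ⌈a⌉₊ (⌊b⌋₊ + 1) with h | h
    · rw [Nat.cast_sub h]
      push_cast
      have := Nat.floor_le hb
      have := Nat.le_ceil a
      linarith
    · rw [Nat.sub_eq_zero_of_le h]
      simp only [Nat.cast_zero]
      linarith
  have h2 : (S.card : ℝ) ≤ ((⌊b⌋₊ + 1 - ⌈a⌉₊ : ℕ) : ℝ) := by exact_mod_cast hc
  linarith

lemma cnt_half (T τ R : ℝ) (E : Finset (ℕ × ℕ)) (hT : 0 < T) (hτ0 : 0 ≤ τ) (hτ2 : τ ≤ 2)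
    (hR : 1 / 2 ≤ R) (hE : ∀ q ∈ E, Reg T τ R q) (hne : E.Nonempty) :
    (E.card : ℝ) ≤ 4 * Real.exp 6 * (τ * T + T ^ (9 / 10 : ℝ)) := by
  have hR0 : 0 < R := by linarith
  set hi := T * Real.exp τ with hhi
  set lo := T * Real.exp (-τ) with hlo
  have hhi0 : 0 < hi := by positivity
  have hlo0 : 0 < lo := by positivity
  have hlohi : lo ≤ hi := by
    rw [hhi, hlo]
    exact mul_le_mul_of_nonneg_left (Real.exp_le_exp.2 (by linarith)) hT.le
  set D0 := Real.sqrt (lo / (2 * R)) with hD0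
  set D1 := Real.sqrt (hi / R) with hD1
  have hD0pos : 0 < D0 := Real.sqrt_pos.2 (by positivity)
  have hD1pos : 0 < D1 := Real.sqrt_pos.2 (by positivity)
  -- the second coordinates
  have hd : ∀ q ∈ E, D0 ≤ (q.2 : ℝ) ∧ (q.2 : ℝ) ≤ D1 := by
    intro q hq
    obtain ⟨h1, h2, h3, h4, h5, h6⟩ := hE q hq
    have hq2 : (0 : ℝ) ≤ (q.2 : ℝ) := Nat.cast_nonneg _
    constructor
    · rw [hD0]
      apply Real.sqrt_le_iff.2
      refine ⟨hq2, ?_⟩
      rw [div_le_iff₀ (by positivity)]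
      calc lo ≤ (q.1 : ℝ) * q.2 := h3
        _ ≤ (2 * R * q.2) * q.2 := mul_le_mul_of_nonneg_right h6 hq2
        _ = (q.2 : ℝ) ^ 2 * (2 * R) := by ring
    · rw [hD1]
      apply Real.le_sqrt_of_sq_le
      rw [le_div_iff₀ hR0]
      calc (q.2 : ℝ) ^ 2 * R = (R * q.2) * q.2 := by ring
        _ ≤ (q.1 : ℝ) * q.2 := mul_le_mul_of_nonneg_right h5 hq2
        _ ≤ hi := h4
  have hD10 : D1 ≤ 2 * Real.exp 2 * D0 := by
    rw [hD1, hD0]
    have e1 : 2 * Real.exp 2 * Real.sqrt (lo / (2 * R)) =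
        Real.sqrt ((2 * Real.exp 2) ^ 2 * (lo / (2 * R))) := by
      rw [Real.sqrt_mul (by positivity), Real.sqrt_sq (by positivity)]
    rw [e1]
    apply Real.sqrt_le_sqrt
    have e2 : (2 * Real.exp 2) ^ 2 * (lo / (2 * R)) = (2 * (Real.exp 2) ^ 2 * lo) / R := by
      field_simp
    rw [e2]
    apply div_le_div_of_nonneg_right _ hR0.le
    rw [hhi, hlo]
    have e3 : Real.exp τ ≤ (Real.exp 2) ^ 2 * Real.exp (-τ) := by
      rw [← Real.exp_nat_mul, ← Real.exp_add]
      apply Real.exp_le_exp.2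
      push_cast
      linarith
    have e4 : 0 < (Real.exp 2) ^ 2 * Real.exp (-τ) := by positivity
    calc T * Real.exp τ ≤ T * ((Real.exp 2) ^ 2 * Real.exp (-τ)) :=
          mul_le_mul_of_nonneg_left e3 hT.le
      _ ≤ T * (2 * ((Real.exp 2) ^ 2 * Real.exp (-τ))) :=
          mul_le_mul_of_nonneg_left (by linarith) hT.le
      _ = 2 * (Real.exp 2) ^ 2 * (T * Real.exp (-τ)) := by ring
  set S := E.image Prod.snd with hS
  have hScard : (S.card : ℝ) ≤ D1 := by
    have hsub : S ⊆ Finset.Icc 1 ⌊D1⌋₊ := by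
      intro d hdS
      obtain ⟨q, hq, rfl⟩ := Finset.mem_image.1 hdS
      rw [Finset.mem_Icc]
      exact ⟨(hE q hq).2.1, Nat.le_floor (hd q hq).2⟩
    have hc := Finset.card_le_card hsub
    rw [Nat.card_Icc] at hc
    have h1 : (S.card : ℝ) ≤ ((⌊D1⌋₊ : ℕ) : ℝ) := by
      exact_mod_cast (by omega : S.card ≤ ⌊D1⌋₊)
    exact le_trans h1 (Nat.floor_le hD1pos.le)
  have hfib : ∀ d ∈ S, ((E.filter fun q => q.2 = d).card : ℝ) ≤ (hi - lo) / D0 + 1 := by
    intro d hdS
    obtain ⟨q0, hq0, hq0d⟩ := Finset.mem_image.1 hdS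
    have hdD : D0 ≤ (d : ℝ) := by rw [← hq0d]; exact (hd q0 hq0).1
    have hd0 : (0 : ℝ) < d := lt_of_lt_of_le hD0pos hdD
    have hcard : (E.filter fun q => q.2 = d).card =
        ((E.filter fun q => q.2 = d).image Prod.fst).card := by
      rw [Finset.card_image_of_injOn]
      intro q hq q' hq' hqq
      have e1 := (Finset.mem_filter.1 hq).2
      have e2 := (Finset.mem_filter.1 hq').2
      exact Prod.ext hqq (e1.trans e2.symm)
    rw [hcard]
    have h1 := card_interval ((E.filter fun q => q.2 = d).image Prod.fst) (lo / d) (hi / d)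
      (div_le_div_of_nonneg_right hlohi hd0.le) (by
        intro n hn
        obtain ⟨q, hq, rfl⟩ := Finset.mem_image.1 hn
        obtain ⟨hqE, hq2⟩ := Finset.mem_filter.1 hq
        obtain ⟨h1, h2, h3, h4, h5, h6⟩ := hE q hqE
        rw [div_le_iff₀ hd0, le_div_iff₀ hd0, ← hq2]
        exact ⟨h3, h4⟩) (by positivity)
    have h2 : hi / d - lo / d = (hi - lo) / d := by ring
    have h3 : (hi - lo) / d ≤ (hi - lo) / D0 :=
      div_le_div_of_nonneg_left (by linarith) hD0pos hdD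
    linarith
  have hsum : (E.card : ℝ) ≤ S.card * ((hi - lo) / D0 + 1) := by
    have h1 : E.card = ∑ d ∈ S, (E.filter fun q => q.2 = d).card :=
      Finset.card_eq_sum_card_fiberwise (fun q hq => Finset.mem_image_of_mem _ hq)
    have h2 : (E.card : ℝ) = ∑ d ∈ S, ((E.filter fun q => q.2 = d).card : ℝ) := by
      rw [h1]; push_cast; rfl
    rw [h2]
    calc _ ≤ ∑ d ∈ S, ((hi - lo) / D0 + 1) := Finset.sum_le_sum hfib
      _ = S.card * ((hi - lo) / D0 + 1) := by rw [Finset.sum_const, nsmul_eq_mul]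
  have hdiff : hi - lo ≤ 2 * Real.exp 4 * (τ * T) := by
    rw [hhi, hlo]
    have e1 : 1 - Real.exp (-(2 * τ)) ≤ 2 * τ := by
      have := Real.add_one_le_exp (-(2 * τ))
      linarith
    have e2 : Real.exp τ - Real.exp (-τ) = Real.exp τ * (1 - Real.exp (-(2 * τ))) := by
      rw [mul_sub, mul_one, ← Real.exp_add]
      congr 2
      ring
    have e3 : Real.exp τ - Real.exp (-τ) ≤ Real.exp 4 * (2 * τ) := by
      rw [e2]
      apply mul_le_mul (Real.exp_le_exp.2 (by linarith)) e1 _ (Real.exp_pos _).le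
      have : Real.exp (-(2 * τ)) ≤ 1 := Real.exp_le_one_iff.2 (by linarith)
      linarith
    calc T * Real.exp τ - T * Real.exp (-τ) = T * (Real.exp τ - Real.exp (-τ)) := by ring
      _ ≤ T * (Real.exp 4 * (2 * τ)) := mul_le_mul_of_nonneg_left e3 hT.le
      _ = _ := by ring
  -- lower bound for `T`
  have hTlow : Real.exp (-2) ≤ T := by
    obtain ⟨q, hq⟩ := hne
    obtain ⟨h1, h2, h3, h4, h5, h6⟩ := hE q hq
    have h7 : (1 : ℝ) ≤ (q.1 : ℝ) * q.2 := by
      have : 1 ≤ q.1 * q.2 := Nat.mul_pos h1 h2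
      exact_mod_cast this
    have h8 : 1 ≤ T * Real.exp 2 := by
      calc (1 : ℝ) ≤ T * Real.exp τ := le_trans h7 h4
        _ ≤ T * Real.exp 2 := mul_le_mul_of_nonneg_left (Real.exp_le_exp.2 hτ2) hT.le
    rw [Real.exp_neg, inv_le_iff_one_le_mul₀ (Real.exp_pos 2)]
    linarith
  have hsq : T ^ (1 / 2 : ℝ) ≤ Real.exp 1 * T ^ (9 / 10 : ℝ) := by
    have e1 : T ^ (1 / 2 : ℝ) = T ^ (-(2 / 5) : ℝ) * T ^ (9 / 10 : ℝ) := by
      rw [← Real.rpow_add hT]
      norm_num
    rw [e1]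
    apply mul_le_mul_of_nonneg_right _ (Real.rpow_nonneg hT.le _)
    calc T ^ (-(2 / 5) : ℝ) ≤ (Real.exp (-2)) ^ (-(2 / 5) : ℝ) :=
          Real.rpow_le_rpow_of_nonpos (Real.exp_pos _) hTlow (by norm_num)
      _ = Real.exp (4 / 5) := by
          rw [← Real.exp_mul]
          norm_num
      _ ≤ Real.exp 1 := Real.exp_le_exp.2 (by norm_num)
  have hD1T : D1 ≤ 2 * Real.exp 1 * T ^ (1 / 2 : ℝ) := by
    rw [← Real.sqrt_eq_rpow, hD1]
    have e1 : 2 * Real.exp 1 * Real.sqrt T = Real.sqrt ((2 * Real.exp 1) ^ 2 * T) := by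
      rw [Real.sqrt_mul (by positivity), Real.sqrt_sq (by positivity)]
    rw [e1]
    apply Real.sqrt_le_sqrt
    rw [div_le_iff₀ hR0, hhi]
    have e2 : Real.exp τ ≤ (Real.exp 1) ^ 2 := by
      rw [← Real.exp_nat_mul]
      apply Real.exp_le_exp.2
      push_cast
      linarith
    calc T * Real.exp τ ≤ T * (Real.exp 1) ^ 2 := mul_le_mul_of_nonneg_left e2 hT.le
      _ ≤ T * (Real.exp 1) ^ 2 * (4 * R) := by
          apply le_mul_of_one_le_right (by positivity)
          linarith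
      _ = (2 * Real.exp 1) ^ 2 * T * R := by ring
  have hTt : 0 ≤ T ^ (9 / 10 : ℝ) := Real.rpow_nonneg hT.le _
  have hτT : 0 ≤ τ * T := mul_nonneg hτ0 hT.le
  have e24 : Real.exp 2 * Real.exp 4 = Real.exp 6 := by
    rw [← Real.exp_add]; norm_num
  have e11 : Real.exp 1 * Real.exp 1 ≤ 2 * Real.exp 6 := by
    rw [← Real.exp_add]
    have : Real.exp (1 + 1) ≤ Real.exp 6 := Real.exp_le_exp.2 (by norm_num)
    have := Real.exp_pos 6
    linarith
  calc (E.card : ℝ) ≤ S.card * ((hi - lo) / D0 + 1) := hsum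
    _ ≤ D1 * ((hi - lo) / D0 + 1) := by
        apply mul_le_mul_of_nonneg_right hScard
        have : 0 ≤ (hi - lo) / D0 := div_nonneg (by linarith) hD0pos.le
        linarith
    _ = D1 / D0 * (hi - lo) + D1 := by
        field_simp
    _ ≤ 2 * Real.exp 2 * (hi - lo) + D1 := by
        have : D1 / D0 ≤ 2 * Real.exp 2 := by
          rw [div_le_iff₀ hD0pos]
          exact hD10
        have := mul_le_mul_of_nonneg_right this (by linarith : 0 ≤ hi - lo)
        linarith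
    _ ≤ 2 * Real.exp 2 * (2 * Real.exp 4 * (τ * T)) + 2 * Real.exp 1 * (Real.exp 1 * T ^ (9 / 10 : ℝ)) := by
        have h1 := mul_le_mul_of_nonneg_left hdiff (by positivity : (0 : ℝ) ≤ 2 * Real.exp 2)
        have h2 := mul_le_mul_of_nonneg_left hsq (by positivity : (0 : ℝ) ≤ 2 * Real.exp 1)
        linarith
    _ = 4 * (Real.exp 2 * Real.exp 4) * (τ * T) +
          2 * (Real.exp 1 * Real.exp 1) * T ^ (9 / 10 : ℝ) := by ring
    _ ≤ 4 * Real.exp 6 * (τ * T) + 2 * (2 * Real.exp 6) * T ^ (9 / 10 : ℝ) := by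
        rw [e24]
        have := mul_le_mul_of_nonneg_right (mul_le_mul_of_nonneg_left e11 (by norm_num : (0:ℝ) ≤ 2)) hTt
        linarith
    _ = 4 * Real.exp 6 * (τ * T + T ^ (9 / 10 : ℝ)) := by ring

end CntAux

open CntAux in
theorem cnt : S_CNT := by
  classical
  refine ⟨4 * Real.exp 6, by positivity, ?_⟩
  intro T τ R E hT hτ0 hτ2 hR hE
  rcases E.eq_empty_or_nonempty with hem | hne
  · subst hem
    simp only [Finset.card_empty, Nat.cast_zero]
    have : 0 ≤ T ^ (9 / 10 : ℝ) := Real.rpow_nonneg hT.le _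
    positivity
  · rcases le_total (1 / 2) R with h | h
    · exact cnt_half T τ R E hT hτ0 hτ2 h hE hne
    · have hcard : E.card = (E.image Prod.swap).card := by
        rw [Finset.card_image_of_injective _ Prod.swap_injective]
      rw [hcard]
      refine cnt_half T τ (1 / (2 * R)) (E.image Prod.swap) hT hτ0 hτ2 ?_ ?_ (hne.image _)
      · rw [div_le_div_iff₀ (by norm_num) (by positivity)]
        linarith
      · intro q hq
        obtain ⟨p, hp, rfl⟩ := Finset.mem_image.1 hq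
        obtain ⟨h1, h2, h3, h4, h5, h6⟩ := hE p hp
        refine ⟨h2, h1, ?_, ?_, ?_, ?_⟩
        · simpa [mul_comm] using h3
        · simpa [mul_comm] using h4
        · simp only [Prod.fst_swap, Prod.snd_swap]
          rw [div_mul_eq_mul_div, one_mul, div_le_iff₀ (by positivity)]
          linarith
        · simp only [Prod.fst_swap, Prod.snd_swap]
          have e1 : 2 * (1 / (2 * R)) * (p.1 : ℝ) = (p.1 : ℝ) / R := by
            field_simp
          rw [e1, le_div_iff₀ hR]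
          linarith

end LRB
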