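import Pool.Agent.LRB.Stmts

/-!
The gcd metric as a sum over primes, and the extremal triple (module LRB_GMTRI).
-/

namespace LRB

open Finset

theorem log_eq_sum (S : Finset ℕ) (n : ℕ) (hn : n.primeFactors ⊆ S) :
    Real.log n = ∑ p ∈ S, (n.factorization p : ℝ) * Real.log p := by
  rw [Real.log_nat_eq_sum_factorization, Finsupp.sum, Nat.support_factorization]
  refine Finset.sum_subset hn fun p _ hp => ?_
  have h0 : n.factorization p = 0 := by
    rw [← Finsupp.notMem_support_iff, Nat.support_factorization]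
    exact hp
  rw [h0, Nat.cast_zero, zero_mul]

theorem nd_eq (a b : ℕ) : nd a b = (a : ℝ) + b - 2 * ((min a b : ℕ) : ℝ) := by
  unfold nd
  rcases le_total a b with h | h
  · rw [min_eq_left h, abs_of_nonpos (sub_nonpos.2 (Nat.cast_le.2 h))]
    ring
  · rw [min_eq_right h, abs_of_nonneg (sub_nonneg.2 (Nat.cast_le.2 h))]
    ring

theorem gm_sum : S_GM := by
  intro S x y _ hx hy hxS hyS
  have hg : (Nat.gcd x y).primeFactors ⊆ S :=
    (Nat.primeFactors_mono (Nat.gcd_dvd_left x y) (by omega)).trans hxS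
  unfold gm
  rw [log_eq_sum S x hxS, log_eq_sum S y hyS, log_eq_sum S _ hg,
    Nat.factorization_gcd (by omega) (by omega), Finset.mul_sum, ← Finset.sum_add_distrib,
    ← Finset.sum_sub_distrib]
  refine Finset.sum_congr rfl fun p _ => ?_
  rw [nd_eq, Finsupp.inf_apply]
  ring

theorem tri : S_TRI := by
  classical
  intro C typ g hC hts hgs hfew
  have hc0 : (0 : ℝ) < C.card := by exact_mod_cast hC.card_pos
  -- the exceptional sets
  have hbad : ∀ x ∈ C, ((C.filter (fun y => ¬ typ x y)).card : ℝ) ≤ (C.card : ℝ) / 10 := by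
    intro x hx
    have := hfew x hx
    linarith
  -- a triple of typical pairs
  obtain ⟨a₀, ha₀⟩ := hC
  obtain ⟨b₀, hb₀, hab₀⟩ : ∃ b ∈ C, typ a₀ b := by
    by_contra hcon
    push Not at hcon
    have h1 : C.filter (fun y => ¬ typ a₀ y) = C := Finset.filter_true_of_mem hcon
    have h2 := hbad a₀ ha₀
    rw [h1] at h2
    linarith
  obtain ⟨c₀, hc₀, hac₀, hbc₀⟩ : ∃ c ∈ C, typ a₀ c ∧ typ b₀ c := by
    by_contra hcon
    push Not at hcon
    have h1 : C ⊆ C.filter (fun y => ¬ typ a₀ y) ∪ C.filter (fun y => ¬ typ b₀ y) := by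
      intro y hy
      rw [Finset.mem_union, Finset.mem_filter, Finset.mem_filter]
      by_cases h : typ a₀ y
      · exact Or.inr ⟨hy, hcon y hy h⟩
      · exact Or.inl ⟨hy, h⟩
    have h2 : (C.card : ℝ) ≤ (C.filter (fun y => ¬ typ a₀ y)).card
        + (C.filter (fun y => ¬ typ b₀ y)).card := by
      exact_mod_cast (Finset.card_le_card h1).trans (Finset.card_union_le _ _)
    have h3 := hbad a₀ ha₀
    have h4 := hbad b₀ hb₀
    linarith
  -- the extremal triple
  set T : Finset (ℕ × ℕ × ℕ) := (C ×ˢ C ×ˢ C).filter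
    (fun t => typ t.1 t.2.1 ∧ typ t.1 t.2.2 ∧ typ t.2.1 t.2.2) with hT
  have hTne : T.Nonempty := ⟨(a₀, b₀, c₀), by
    rw [hT, Finset.mem_filter]
    exact ⟨by simp [ha₀, hb₀, hc₀], hab₀, hac₀, hbc₀⟩⟩
  have hmemT : ∀ a b c, (a, b, c) ∈ T ↔ (a ∈ C ∧ b ∈ C ∧ c ∈ C) ∧ typ a b ∧ typ a c ∧ typ b c := by
    intro a b c
    rw [hT, Finset.mem_filter]
    simp only [Finset.mem_product]
  obtain ⟨⟨a, b, c⟩, habc, hmin⟩ := Finset.exists_min_image T
    (fun t => g t.1 t.2.1 + g t.1 t.2.2 + g t.2.1 t.2.2) hTne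
  obtain ⟨⟨ha, hb, hc⟩, tab, tac, tbc⟩ := (hmemT a b c).1 habc
  refine ⟨a, ha, b, hb, c, hc, tab, tac, tbc, ?_, ?_⟩
  · -- union bound
    have h1 : C ⊆ C.filter (fun x => typ x a ∧ typ x b ∧ typ x c) ∪
        (C.filter (fun y => ¬ typ a y) ∪ (C.filter (fun y => ¬ typ b y) ∪
          C.filter (fun y => ¬ typ c y))) := by
      intro y hy
      simp only [Finset.mem_union, Finset.mem_filter]
      by_cases h1 : typ a y
      · by_cases h2 : typ b y
        · by_cases h3 : typ c y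
          · exact Or.inl ⟨hy, hts _ _ h1, hts _ _ h2, hts _ _ h3⟩
          · exact Or.inr (Or.inr (Or.inr ⟨hy, h3⟩))
        · exact Or.inr (Or.inr (Or.inl ⟨hy, h2⟩))
      · exact Or.inr (Or.inl ⟨hy, h1⟩)
    have h2 : C.card ≤ (C.filter (fun x => typ x a ∧ typ x b ∧ typ x c)).card +
        ((C.filter (fun y => ¬ typ a y)).card + ((C.filter (fun y => ¬ typ b y)).card +
          (C.filter (fun y => ¬ typ c y)).card)) := by
      refine (Finset.card_le_card h1).trans ((Finset.card_union_le _ _).trans ?_)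
      refine Nat.add_le_add_left ((Finset.card_union_le _ _).trans ?_) _
      exact Nat.add_le_add_left (Finset.card_union_le _ _) _
    have h3 : (C.card : ℝ) ≤ (C.filter (fun x => typ x a ∧ typ x b ∧ typ x c)).card +
        ((C.filter (fun y => ¬ typ a y)).card + ((C.filter (fun y => ¬ typ b y)).card +
          (C.filter (fun y => ¬ typ c y)).card)) := by exact_mod_cast h2
    have h4 := hbad a ha
    have h5 := hbad b hb
    have h6 := hbad c hc
    linarith
  · intro x hx xa xb xc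
    have h1 := hmin (x, b, c) ((hmemT x b c).2 ⟨⟨hx, hb, hc⟩, xb, xc, tbc⟩)
    have h2 := hmin (a, x, c) ((hmemT a x c).2 ⟨⟨ha, hx, hc⟩, hts _ _ xa, tac, xc⟩)
    have h3 := hmin (a, b, x) ((hmemT a b x).2 ⟨⟨ha, hb, hx⟩, tab, hts _ _ xa, hts _ _ xb⟩)
    simp only at h1 h2 h3
    rw [hgs a x] at h2 h3
    rw [hgs b x] at h3
    linarith

end LRB
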