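import Pool.Agent.LRB.Stmts

/-!
# Modules LRB_LOC1 and LRB_LOC2: local factors
-/

namespace LRB

open Finset

lemma loc12_pow {p : ℕ} (s w : ℕ) :
    (p : ℝ) ^ (-(nd s w / 3)) = gam p ^ (Nat.dist s w) := by
  have h1 : nd s w = ((Nat.dist s w : ℕ) : ℝ) := by
    unfold nd
    rcases le_total s w with h | h
    · rw [Nat.dist_eq_sub_of_le h, Nat.cast_sub h, abs_of_nonpos (by
        have : (s : ℝ) ≤ w := by exact_mod_cast h
        linarith)]
      ring
    · rw [Nat.dist_eq_sub_of_le_right h, Nat.cast_sub h, abs_of_nonneg (by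
        have : (w : ℝ) ≤ s := by exact_mod_cast h
        linarith)]
  unfold gam
  rw [h1, ← Real.rpow_natCast, ← Real.rpow_mul (Nat.cast_nonneg p)]
  congr 1
  ring

lemma loc12_gam_nonneg (p : ℕ) : 0 ≤ gam p := by
  unfold gam
  positivity

lemma loc12_gam_cube {p : ℕ} : gam p ^ 3 = ((p : ℝ))⁻¹ := by
  unfold gam
  rw [← Real.rpow_natCast, ← Real.rpow_mul (Nat.cast_nonneg p)]
  rw [← Real.rpow_neg_one]
  congr 1
  norm_num

/-- if `1 / p ≤ b ^ 3` then the weight is at most `b` -/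
lemma loc12_gam_le {p : ℕ} {b : ℝ} (hb : 0 ≤ b) (h : ((p : ℝ))⁻¹ ≤ b ^ 3) : gam p ≤ b := by
  rw [← loc12_gam_cube] at h
  exact (pow_le_pow_iff_left₀ (loc12_gam_nonneg p) hb (by norm_num)).mp h

lemma loc12_left {x : ℝ} (hx : 0 ≤ x) (hx1 : x < 1) (l w : ℕ) :
    ∑ s ∈ Ico l w, x ^ (Nat.dist s w) ≤ x / (1 - x) := by
  have h1 : ∑ s ∈ Ico l w, x ^ (Nat.dist s w) = ∑ k ∈ (Ico l w).image (fun s => w - s), x ^ k := by
    rw [sum_image]
    · refine sum_congr rfl fun s hs => ?_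
      rw [Nat.dist_eq_sub_of_le (mem_Ico.1 hs).2.le]
    · intro s hs t ht hst
      have hs := mem_Ico.1 (mem_coe.1 hs)
      have ht := mem_Ico.1 (mem_coe.1 ht)
      have hst : w - s = w - t := hst
      omega
  rw [h1]
  have h2 : (Ico l w).image (fun s => w - s) ⊆ Ico 1 (w + 1) := by
    intro k hk
    obtain ⟨s, hs, rfl⟩ := mem_image.1 hk
    have hs := mem_Ico.1 hs
    exact mem_Ico.2 ⟨by omega, by omega⟩
  refine (sum_le_sum_of_subset_of_nonneg h2 fun _ _ _ => pow_nonneg hx _).trans ?_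
  have := geom_sum_Ico_le_of_lt_one (m := 1) (n := w + 1) hx hx1
  simpa using this

lemma loc12_right {x : ℝ} (hx : 0 ≤ x) (hx1 : x < 1) (w h : ℕ) :
    ∑ s ∈ Ioc w h, x ^ (Nat.dist s w) ≤ x / (1 - x) := by
  have h1 : ∑ s ∈ Ioc w h, x ^ (Nat.dist s w) = ∑ k ∈ (Ioc w h).image (fun s => s - w), x ^ k := by
    rw [sum_image]
    · refine sum_congr rfl fun s hs => ?_
      rw [Nat.dist_eq_sub_of_le_right (mem_Ioc.1 hs).1.le]
    · intro s hs t ht hst
      have hs := mem_Ioc.1 (mem_coe.1 hs)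
      have ht := mem_Ioc.1 (mem_coe.1 ht)
      have hst : s - w = t - w := hst
      omega
  rw [h1]
  have h2 : (Ioc w h).image (fun s => s - w) ⊆ Ico 1 (h + 1) := by
    intro k hk
    obtain ⟨s, hs, rfl⟩ := mem_image.1 hk
    have hs := mem_Ioc.1 hs
    exact mem_Ico.2 ⟨by omega, by omega⟩
  refine (sum_le_sum_of_subset_of_nonneg h2 fun _ _ _ => pow_nonneg hx _).trans ?_
  have := geom_sum_Ico_le_of_lt_one (m := 1) (n := h + 1) hx hx1
  simpa using this

lemma loc12_split {l w h : ℕ} (hlw : l ≤ w) (hwh : w ≤ h) (f : ℕ → ℝ) :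
    ∑ s ∈ Icc l h, f s = f w + (∑ s ∈ Ico l w, f s + ∑ s ∈ Ioc w h, f s) := by
  have h1 : Icc l h = insert w (Ico l w ∪ Ioc w h) := by
    ext s
    simp only [mem_Icc, mem_insert, mem_union, mem_Ico, mem_Ioc]
    omega
  rw [h1, sum_insert (by simp), sum_union]
  rw [disjoint_left]
  intro s hs hs'
  have hs := mem_Ico.1 hs
  have hs' := mem_Ioc.1 hs'
  omega

lemma loc12_gam_small {p : ℕ} (hp : KK < p) : gam p ≤ 1 / 100 := by
  refine loc12_gam_le (by norm_num) ?_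
  have h1 : (10 ^ 6 : ℕ) ≤ KK := by
    unfold KK
    norm_num
  have h2 : ((10 ^ 6 : ℕ) : ℝ) ≤ (p : ℝ) := by exact_mod_cast (h1.trans hp.le)
  have h3 : ((p : ℝ))⁻¹ ≤ (((10 ^ 6 : ℕ) : ℝ))⁻¹ := inv_anti₀ (by norm_num) h2
  refine h3.trans (le_of_eq ?_)
  norm_num

/-- Module LRB_LOC1 -/
theorem loc1 : S_LOC1 := by
  intro p l w h hp hlw hwh _
  have hg0 := loc12_gam_nonneg p
  have hg := loc12_gam_small hp
  have hg1 : gam p < 1 := by linarith
  set g := gam p with hgdef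
  rw [loc12_split hlw hwh]
  have hw : (p : ℝ) ^ (-(nd w w / 3)) *
      (if w = w then Real.exp (-(4 * g)) else Real.exp (4 * g)) = Real.exp (-(4 * g)) := by
    rw [if_pos rfl]
    have : nd w w = 0 := by
      unfold nd
      simp
    rw [this]
    simp
  have hL : ∑ s ∈ Ico l w, (p : ℝ) ^ (-(nd s w / 3)) *
      (if s = w then Real.exp (-(4 * g)) else Real.exp (4 * g)) ≤
      g / (1 - g) * Real.exp (4 * g) := by
    have : ∑ s ∈ Ico l w, (p : ℝ) ^ (-(nd s w / 3)) *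
      (if s = w then Real.exp (-(4 * g)) else Real.exp (4 * g)) =
      (∑ s ∈ Ico l w, g ^ (Nat.dist s w)) * Real.exp (4 * g) := by
      rw [sum_mul]
      refine sum_congr rfl fun s hs => ?_
      rw [if_neg (by have := (mem_Ico.1 hs).2; omega), loc12_pow]
    rw [this]
    exact mul_le_mul_of_nonneg_right (loc12_left hg0 hg1 l w) (Real.exp_pos _).le
  have hR : ∑ s ∈ Ioc w h, (p : ℝ) ^ (-(nd s w / 3)) *
      (if s = w then Real.exp (-(4 * g)) else Real.exp (4 * g)) ≤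
      g / (1 - g) * Real.exp (4 * g) := by
    have : ∑ s ∈ Ioc w h, (p : ℝ) ^ (-(nd s w / 3)) *
      (if s = w then Real.exp (-(4 * g)) else Real.exp (4 * g)) =
      (∑ s ∈ Ioc w h, g ^ (Nat.dist s w)) * Real.exp (4 * g) := by
      rw [sum_mul]
      refine sum_congr rfl fun s hs => ?_
      rw [if_neg (by have := (mem_Ioc.1 hs).1; omega), loc12_pow]
    rw [this]
    exact mul_le_mul_of_nonneg_right (loc12_right hg0 hg1 w h) (Real.exp_pos _).le
  rw [hw]
  have e1 : Real.exp (-(4 * g)) ≤ 1 - 3 * g := by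
    have h1 : 1 + 4 * g ≤ Real.exp (4 * g) := by
      have := Real.add_one_le_exp (4 * g)
      linarith
    rw [Real.exp_neg]
    have h2 : (Real.exp (4 * g))⁻¹ ≤ (1 + 4 * g)⁻¹ := inv_anti₀ (by linarith) h1
    refine h2.trans ?_
    rw [inv_le_iff_one_le_mul₀ (by linarith)]
    nlinarith
  have e2 : Real.exp (4 * g) ≤ 25 / 24 := by
    have h1 : 1 - 4 * g ≤ Real.exp (-(4 * g)) := by
      have := Real.add_one_le_exp (-(4 * g))
      linarith
    have h2 : (24 / 25 : ℝ) ≤ Real.exp (-(4 * g)) := by linarith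
    have h3 : Real.exp (4 * g) = (Real.exp (-(4 * g)))⁻¹ := by
      rw [← Real.exp_neg, neg_neg]
    rw [h3]
    have := inv_anti₀ (by norm_num : (0 : ℝ) < 24 / 25) h2
    refine this.trans (le_of_eq ?_)
    norm_num
  have e3 : g / (1 - g) ≤ 100 / 99 * g := by
    rw [div_le_iff₀ (by linarith)]
    nlinarith
  have e4 : g / (1 - g) * Real.exp (4 * g) ≤ (100 / 99 * g) * (25 / 24) :=
    mul_le_mul e3 e2 (Real.exp_pos _).le (by linarith)
  linarith

/-- Module LRB_LOC2 -/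
theorem loc2 : S_LOC2 := by
  intro p l w h hp hlw hwh
  have hg0 := loc12_gam_nonneg p
  have hg : gam p ≤ 4 / 5 := by
    refine loc12_gam_le (by norm_num) ?_
    have h2 : (2 : ℝ) ≤ (p : ℝ) := by exact_mod_cast hp
    have h3 : ((p : ℝ))⁻¹ ≤ ((2 : ℝ))⁻¹ := inv_anti₀ (by norm_num) h2
    refine h3.trans ?_
    norm_num
  have hg1 : gam p < 1 := by linarith
  have e : ∑ s ∈ Icc l h, (p : ℝ) ^ (-(nd s w / 3)) = ∑ s ∈ Icc l h, gam p ^ (Nat.dist s w) :=
    sum_congr rfl fun s _ => loc12_pow s w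
  rw [e, loc12_split hlw hwh, Nat.dist_self, pow_zero]
  have hL := loc12_left hg0 hg1 l w
  have hR := loc12_right hg0 hg1 w h
  have h4 : gam p / (1 - gam p) ≤ 4 := by
    rw [div_le_iff₀ (by linarith)]
    linarith
  linarith

end LRB
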