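import Pool.Agent.LRB.Stmts

/-!
# Weighted count of the region (helper79)
-/

namespace LRB

open Finset

namespace WCntAux

lemma sg_eq {n M : ℕ} (h1 : 1 ≤ n) (h2 : n ≤ M) :
    sg n = ∑ t ∈ Icc 1 M, if t ∣ n then (t : ℝ) ^ (-(1 / 4 : ℝ)) else 0 := by
  unfold sg
  rw [← sum_filter]
  apply sum_congr _ fun _ _ => rfl
  ext t
  rw [Nat.mem_divisors, mem_filter, mem_Icc]
  constructor
  · rintro ⟨h3, h4⟩
    exact ⟨⟨Nat.pos_of_dvd_of_pos h3 h1, (Nat.le_of_dvd h1 h3).trans h2⟩, h3⟩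
  · rintro ⟨_, h3⟩
    exact ⟨h3, by omega⟩

lemma reg_div {T τ R : ℝ} {q : ℕ × ℕ} (hq : Reg T τ R q) {t t2 : ℕ} (ht : 1 ≤ t)
    (ht2 : 1 ≤ t2) (h1 : t ∣ q.1) (h2 : t2 ∣ q.2) :
    Reg (T / ((t : ℝ) * t2)) τ (R * t2 / t) (q.1 / t, q.2 / t2) := by
  obtain ⟨a, ha⟩ := h1
  obtain ⟨b, hb⟩ := h2
  obtain ⟨q1, q2⟩ := q
  simp only at ha hb
  subst ha hb
  obtain ⟨h3, h4, h5, h6, h7, h8⟩ := hq
  simp only at h3 h4 h5 h6 h7 h8
  have ht' : (0 : ℝ) < t := by exact_mod_cast ht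
  have ht2' : (0 : ℝ) < t2 := by exact_mod_cast ht2
  push_cast at h5 h6 h7 h8
  have e1 : t * a / t = a := Nat.mul_div_cancel_left a ht
  have e2 : t2 * b / t2 = b := Nat.mul_div_cancel_left b ht2
  have ha : 1 ≤ a := by
    rcases Nat.eq_zero_or_pos a with h | h
    · rw [h, mul_zero] at h3; omega
    · exact h
  have hb : 1 ≤ b := by
    rcases Nat.eq_zero_or_pos b with h | h
    · rw [h, mul_zero] at h4; omega
    · exact h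
  unfold Reg
  simp only [e1, e2]
  refine ⟨ha, hb, ?_, ?_, ?_, ?_⟩
  · rw [div_mul_eq_mul_div, div_le_iff₀ (by positivity)]
    nlinarith
  · rw [div_mul_eq_mul_div, le_div_iff₀ (by positivity)]
    nlinarith
  · rw [div_mul_eq_mul_div, div_le_iff₀ ht']
    nlinarith
  · have e3 : 2 * (R * t2 / t) * b = (2 * R * (t2 * b)) / t := by ring
    rw [e3, le_div_iff₀ ht']
    nlinarith

end WCntAux

open WCntAux in
theorem wcnt (h : S_CNT) : S_WCNT := by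
  obtain ⟨C₀, hC₀, hcnt⟩ := h
  have hZ : Summable (fun n : ℕ => (n : ℝ) ^ (-(23 / 20 : ℝ))) :=
    Real.summable_nat_rpow.mpr (by norm_num)
  set Z : ℝ := ∑' n : ℕ, (n : ℝ) ^ (-(23 / 20 : ℝ)) with hZd
  refine ⟨C₀ * Z ^ 2, by positivity, ?_⟩
  intro T τ R E hT hτ hτ2 hR hE
  obtain ⟨M, hM⟩ : ∃ M : ℕ, ∀ q ∈ E, q.1 ≤ M ∧ q.2 ≤ M := by
    refine ⟨E.sup fun q => max q.1 q.2, fun q hq => ?_⟩
    have h9 : max q.1 q.2 ≤ E.sup fun q => max q.1 q.2 :=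
      le_sup (f := fun q : ℕ × ℕ => max q.1 q.2) hq
    exact ⟨(le_max_left _ _).trans h9, (le_max_right _ _).trans h9⟩
  have e1 : ∑ q ∈ E, sg q.1 * sg q.2 = ∑ t ∈ Icc 1 M, ∑ t2 ∈ Icc 1 M,
      (t : ℝ) ^ (-(1 / 4 : ℝ)) * (t2 : ℝ) ^ (-(1 / 4 : ℝ)) *
        ((E.filter fun q => t ∣ q.1 ∧ t2 ∣ q.2).card : ℝ) := by
    have h1 : ∀ q ∈ E, sg q.1 * sg q.2 = ∑ t ∈ Icc 1 M, ∑ t2 ∈ Icc 1 M,
        if t ∣ q.1 ∧ t2 ∣ q.2 then (t : ℝ) ^ (-(1 / 4 : ℝ)) * (t2 : ℝ) ^ (-(1 / 4 : ℝ)) else 0 := by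
      intro q hq
      rw [sg_eq (hE q hq).1 (hM q hq).1, sg_eq (hE q hq).2.1 (hM q hq).2, sum_mul_sum]
      apply sum_congr rfl
      intro t _
      apply sum_congr rfl
      intro t2 _
      by_cases h2 : t ∣ q.1 <;> by_cases h3 : t2 ∣ q.2 <;> simp [h2, h3]
    rw [sum_congr rfl h1, sum_comm]
    apply sum_congr rfl
    intro t _
    rw [sum_comm]
    apply sum_congr rfl
    intro t2 _
    rw [← sum_filter, sum_const, nsmul_eq_mul, mul_comm]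
  rw [e1]
  have key : ∀ t ∈ Icc 1 M, ∀ t2 ∈ Icc 1 M,
      (t : ℝ) ^ (-(1 / 4 : ℝ)) * (t2 : ℝ) ^ (-(1 / 4 : ℝ)) *
        ((E.filter fun q => t ∣ q.1 ∧ t2 ∣ q.2).card : ℝ) ≤
      C₀ * (τ * T + T ^ (9 / 10 : ℝ)) *
        ((t : ℝ) ^ (-(23 / 20 : ℝ)) * (t2 : ℝ) ^ (-(23 / 20 : ℝ))) := by
    intro t ht t2 ht2
    rw [mem_Icc] at ht ht2
    have htr : (1 : ℝ) ≤ t := by exact_mod_cast ht.1
    have ht2r : (1 : ℝ) ≤ t2 := by exact_mod_cast ht2.1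
    have htp : (0 : ℝ) < t := by linarith
    have ht2p : (0 : ℝ) < t2 := by linarith
    set E' := E.filter fun q => t ∣ q.1 ∧ t2 ∣ q.2 with hE'
    set φ : ℕ × ℕ → ℕ × ℕ := fun q => (q.1 / t, q.2 / t2) with hφ
    have hinj : Set.InjOn φ (E' : Set (ℕ × ℕ)) := by
      intro q hq q' hq' hqq
      rw [mem_coe, hE', mem_filter] at hq hq'
      have h1 : q.1 / t = q'.1 / t := congrArg Prod.fst hqq
      have h2 : q.2 / t2 = q'.2 / t2 := congrArg Prod.snd hqq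
      have h3 : q.1 = q'.1 := by
        rw [← Nat.mul_div_cancel' hq.2.1, ← Nat.mul_div_cancel' hq'.2.1, h1]
      have h4 : q.2 = q'.2 := by
        rw [← Nat.mul_div_cancel' hq.2.2, ← Nat.mul_div_cancel' hq'.2.2, h2]
      exact Prod.ext h3 h4
    have hcard : (E'.image φ).card = E'.card := card_image_of_injOn hinj
    have hc := hcnt (T / ((t : ℝ) * t2)) τ (R * t2 / t) (E'.image φ) (by positivity) hτ hτ2
      (by positivity) (by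
        intro q hq
        rw [mem_image] at hq
        obtain ⟨q0, hq0, rfl⟩ := hq
        rw [hE', mem_filter] at hq0
        exact reg_div (hE q0 hq0.1) ht.1 ht2.1 hq0.2.1 hq0.2.2)
    rw [hcard] at hc
    set u : ℝ := (t : ℝ) * t2 with hu
    have hu1 : 1 ≤ u := by rw [hu]; nlinarith
    have hup : 0 < u := by linarith
    have e2 : (t : ℝ) ^ (-(1 / 4 : ℝ)) * (t2 : ℝ) ^ (-(1 / 4 : ℝ)) = u ^ (-(1 / 4 : ℝ)) :=
      (Real.mul_rpow htp.le ht2p.le).symm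
    have e3 : (t : ℝ) ^ (-(23 / 20 : ℝ)) * (t2 : ℝ) ^ (-(23 / 20 : ℝ)) = u ^ (-(23 / 20 : ℝ)) :=
      (Real.mul_rpow htp.le ht2p.le).symm
    rw [e2, e3]
    have hpow : 0 ≤ u ^ (-(1 / 4 : ℝ)) := by positivity
    have e4 : (T / u) ^ (9 / 10 : ℝ) = T ^ (9 / 10 : ℝ) * u ^ (-(9 / 10 : ℝ)) := by
      rw [Real.div_rpow hT.le hup.le, Real.rpow_neg hup.le]
      rfl
    have e5 : u ^ (-(1 / 4 : ℝ)) * u ^ (-(9 / 10 : ℝ)) = u ^ (-(23 / 20 : ℝ)) := by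
      rw [← Real.rpow_add hup]
      norm_num
    have e6 : u ^ (-(1 / 4 : ℝ)) * u⁻¹ ≤ u ^ (-(23 / 20 : ℝ)) := by
      rw [← Real.rpow_neg_one, ← Real.rpow_add hup]
      exact Real.rpow_le_rpow_of_exponent_le hu1 (by norm_num)
    calc u ^ (-(1 / 4 : ℝ)) * (E'.card : ℝ) ≤
        u ^ (-(1 / 4 : ℝ)) * (C₀ * (τ * (T / u) + (T / u) ^ (9 / 10 : ℝ))) :=
          mul_le_mul_of_nonneg_left hc hpow
      _ = C₀ * (τ * T * (u ^ (-(1 / 4 : ℝ)) * u⁻¹) +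
            T ^ (9 / 10 : ℝ) * (u ^ (-(1 / 4 : ℝ)) * u ^ (-(9 / 10 : ℝ)))) := by
          rw [e4]
          ring
      _ ≤ C₀ * (τ * T * u ^ (-(23 / 20 : ℝ)) + T ^ (9 / 10 : ℝ) * u ^ (-(23 / 20 : ℝ))) := by
          rw [e5]
          apply mul_le_mul_of_nonneg_left _ hC₀
          have := mul_le_mul_of_nonneg_left e6 (by positivity : 0 ≤ τ * T)
          linarith
      _ = C₀ * (τ * T + T ^ (9 / 10 : ℝ)) * u ^ (-(23 / 20 : ℝ)) := by ring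
  have hpart : ∑ t ∈ Icc 1 M, (t : ℝ) ^ (-(23 / 20 : ℝ)) ≤ Z :=
    hZ.sum_le_tsum _ fun n _ => by positivity
  have hpart0 : 0 ≤ ∑ t ∈ Icc 1 M, (t : ℝ) ^ (-(23 / 20 : ℝ)) :=
    sum_nonneg fun n _ => by positivity
  calc ∑ t ∈ Icc 1 M, ∑ t2 ∈ Icc 1 M,
      (t : ℝ) ^ (-(1 / 4 : ℝ)) * (t2 : ℝ) ^ (-(1 / 4 : ℝ)) *
        ((E.filter fun q => t ∣ q.1 ∧ t2 ∣ q.2).card : ℝ) ≤
      ∑ t ∈ Icc 1 M, ∑ t2 ∈ Icc 1 M, C₀ * (τ * T + T ^ (9 / 10 : ℝ)) *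
        ((t : ℝ) ^ (-(23 / 20 : ℝ)) * (t2 : ℝ) ^ (-(23 / 20 : ℝ))) :=
        sum_le_sum fun t ht => sum_le_sum fun t2 ht2 => key t ht t2 ht2
    _ = C₀ * (τ * T + T ^ (9 / 10 : ℝ)) *
        ((∑ t ∈ Icc 1 M, (t : ℝ) ^ (-(23 / 20 : ℝ))) *
          ∑ t2 ∈ Icc 1 M, (t2 : ℝ) ^ (-(23 / 20 : ℝ))) := by
        rw [sum_mul_sum, mul_sum]
        apply sum_congr rfl
        intro t _
        rw [mul_sum]
    _ ≤ C₀ * (τ * T + T ^ (9 / 10 : ℝ)) * (Z * Z) := by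
        apply mul_le_mul_of_nonneg_left _ (by positivity)
        exact mul_le_mul hpart hpart hpart0 (hpart0.trans hpart)
    _ = C₀ * Z ^ 2 * (τ * T + T ^ (9 / 10 : ℝ)) := by ring

end LRB
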